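import Pool.Agent.Helper89.KB.Main

/-!
# Kernels of surjections `ℓ¹ → F` have a basis when `F` has one

Over the real or the complex numbers. For every Banach space `F` with a Schauder basis, in
particular for `F = c₀` and `F = ℓ²`, the kernel of every bounded linear map of `ℓ¹` onto `F` is
finite dimensional or has a Schauder basis.

Sketch. (A) A *tree surjection* `u₀ : ℓ¹ × ℓ¹ → F` is built from the basis `(f_n)` of `F`: the nodes
of level `n` are finitely many vectors `a_0 f_0 + ... + a_n f_n`, with `a_i` in a fixed finite grid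
and all partial sums in the unit ball; the parent of a node is its partial sum of length `n`. The
kernel of `u₀` has the explicit basis `e_node - e_parent - κ g_n` (in level order); the coordinate
of a vector at a node is the sum of its values over all descendants of the node. (B) Schanuel's
lemma: `ker u × ℓ¹ × ℓ¹ ≃ ker u₀ × ℓ¹`. (C) A gliding hump argument: an infinite dimensional closed
subspace of `ℓ¹` absorbs `ℓ¹`. Files: `Pool/Agent/Helper89/KB/*`.
-/

set_option autoImplicit false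

open Filter Topology
open scoped ZeroAtInfty

namespace Pool.Agent.Results.MP_21f544_an.KernelBasis

/-- `f` is a Schauder basis of `X`: every `x` has a unique norm convergent expansion. -/
def IsSchauderBasis (𝕜 : Type*) [RCLike 𝕜] {X : Type*} [NormedAddCommGroup X] [NormedSpace 𝕜 X]
    (f : ℕ → X) : Prop :=
  ∀ x : X, ∃! a : ℕ → 𝕜, Tendsto (fun n => ∑ i ∈ Finset.range n, a i • f i) atTop (𝓝 x)

/-- `X` has a basis: it is finite dimensional or has a Schauder basis. -/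
def HasBasis (𝕜 : Type*) [RCLike 𝕜] (X : Type*) [NormedAddCommGroup X] [NormedSpace 𝕜 X] : Prop :=
  FiniteDimensional 𝕜 X ∨ ∃ f : ℕ → X, IsSchauderBasis 𝕜 f

/-- The kernel (with the induced norm) of every bounded linear map of `X` onto `F` has a basis. -/
def KernelsHaveBasis (𝕜 : Type*) [RCLike 𝕜] (X F : Type*) [NormedAddCommGroup X] [NormedSpace 𝕜 X]
    [NormedAddCommGroup F] [NormedSpace 𝕜 F] : Prop :=
  ∀ u : X →L[𝕜] F, Function.Surjective u → HasBasis 𝕜 (LinearMap.ker (u : X →ₗ[𝕜] F))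

/-- `F` has a basis, or at least `F × X` has a basis. -/
def HasBasisUpTo (𝕜 : Type*) [RCLike 𝕜] (X F : Type*) [NormedAddCommGroup X] [NormedSpace 𝕜 X]
    [NormedAddCommGroup F] [NormedSpace 𝕜 F] : Prop :=
  HasBasis 𝕜 F ∨ HasBasis 𝕜 (F × X)

/-- **Main theorem.** Let `𝕜` be `ℝ` or `ℂ` and let `F` be a Banach space over `𝕜` such that `F` (or
at least `F × ℓ¹`) has a basis, that is, is finite dimensional or has a Schauder basis. Then the
kernel of every bounded linear map of `ℓ¹` onto `F` has a basis. -/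
theorem result (𝕜 : Type*) [RCLike 𝕜] (F : Type*) [NormedAddCommGroup F] [NormedSpace 𝕜 F]
    [CompleteSpace F] (hF : HasBasisUpTo 𝕜 (lp (fun _ : ℕ => 𝕜) 1) F) :
    KernelsHaveBasis 𝕜 (lp (fun _ : ℕ => 𝕜) 1) F := by
  intro u hu
  have key : (FiniteDimensional 𝕜 (Helper89.KB.ker u) ∨
      Nonempty (SchauderBasis 𝕜 (Helper89.KB.ker u))) →
        HasBasis 𝕜 (LinearMap.ker (u : lp (fun _ : ℕ => 𝕜) 1 →ₗ[𝕜] F)) := by
    rintro (h | ⟨⟨b⟩⟩)
    · exact Or.inl h
    · exact Or.inr ⟨_, Helper89.KB.isBasis_of_basis b⟩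
  have hfd : FiniteDimensional 𝕜 F → HasBasis 𝕜 (LinearMap.ker (u : lp (fun _ : ℕ => 𝕜) 1 →ₗ[𝕜] F)) := by
    intro hF
    obtain ⟨b⟩ := Helper89.KB.fd_basis (𝕜 := 𝕜) (F := F)
    exact key (Helper89.KB.kernel_basis_prod b u hu)
  rcases hF with (hF | ⟨f, hf⟩) | (hF | ⟨f, hf⟩)
  · exact hfd hF
  · obtain ⟨b, _⟩ := Helper89.KB.IsBasis.exists_basis (𝕜 := 𝕜) (f := f) hf
    exact key (Helper89.KB.kernel_basis b u hu)
  · exact hfd (Module.Finite.of_surjective
      (LinearMap.fst 𝕜 F (lp (fun _ : ℕ => 𝕜) (1 : ENNReal))) Prod.fst_surjective)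
  · obtain ⟨b, _⟩ := Helper89.KB.IsBasis.exists_basis (𝕜 := 𝕜) (f := f) hf
    exact key (Helper89.KB.kernel_basis_prod b u hu)

/-- The case `F = ℓ^p`, `1 ≤ p < ∞`; in particular `F = ℓ²`. -/
theorem lp_case (𝕜 : Type*) [RCLike 𝕜] (p : ENNReal) [Fact (1 ≤ p)] (hp : p ≠ ⊤) :
    KernelsHaveBasis 𝕜 (lp (fun _ : ℕ => 𝕜) 1) (lp (fun _ : ℕ => 𝕜) p) :=
  result 𝕜 _ (Or.inl (Or.inr ⟨_, Helper89.KB.isBasis_lp (𝕜 := 𝕜) p hp⟩))

/-- The case `F = c₀`. -/
theorem c0_case (𝕜 : Type*) [RCLike 𝕜] :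
    KernelsHaveBasis 𝕜 (lp (fun _ : ℕ => 𝕜) 1) C₀(ℕ, 𝕜) :=
  result 𝕜 _ (Or.inl (Or.inr ⟨_, Helper89.KB.isBasis_c0 (𝕜 := 𝕜)⟩))

end Pool.Agent.Results.MP_21f544_an.KernelBasis
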